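import Mathlib
import Pool.Agent.Lib.MP_60edde_al.Neg.Final

/-!
MP_60edde_al, Q1 has a negative answer: there are a right-angled Coxeter group of finite rank
and an element whose stable reflection length is irrational.
-/

namespace Pool.Agent.Results.MP_60edde_al.IrrationalSrl

open Filter Topology

/-- Reflection length: least `n` such that `w` is a product of `n` reflections. -/
noncomputable def reflectionLength {B W : Type} [Group W] {M : CoxeterMatrix B}
    (cs : CoxeterSystem M W) (w : W) : ℕ :=
  sInf {n : ℕ | ∃ L : List W, (∀ t ∈ L, cs.IsReflection t) ∧ L.prod = w ∧ L.length = n}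

theorem irrational_nat_sub_sqrt_five (q : ℕ) : Irrational ((q : ℝ) - Real.sqrt 5) := by
  have h5 : Irrational (Real.sqrt 5) := by
    have := Nat.Prime.irrational_sqrt (show Nat.Prime 5 by norm_num)
    simpa using this
  exact h5.natCast_sub q

/-- There is a Coxeter system `(W, S)` of finite rank (with all `m_{st}`, `s ≠ t`, equal to `2` or
`∞`; `0` codes `∞`) and an element `w` of `W` whose stable reflection length
`lim rl (w ^ n) / n` is the irrational number `q - √5` for some natural number `q`. -/
theorem result : ∃ (B : Type) (_ : Finite B) (W : Type) (_ : Group W) (M : CoxeterMatrix B)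
    (cs : CoxeterSystem M W) (w : W) (q : ℕ),
    (∀ i j : B, i ≠ j → M i j = 0 ∨ M i j = 2) ∧
    Tendsto (fun n : ℕ => (reflectionLength cs (w ^ n) : ℝ) / n) atTop
      (𝓝 ((q : ℝ) - Real.sqrt 5)) ∧
    Irrational ((q : ℝ) - Real.sqrt 5) := by
  obtain ⟨B, hB, M, w, q, hM, h⟩ := Pool.Agent.Lib.MP_60edde_al.Neg.irrational_srl
  refine ⟨B, hB, M.Group, inferInstance, M, M.toCoxeterSystem, w, q, ?_, ?_,
    irrational_nat_sub_sqrt_five q⟩
  · intro i j hij
    have h1 := M.off_diagonal i j hij
    rcases hM i j with h | h | h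
    · exact Or.inl h
    · exact absurd h h1
    · exact Or.inr h
  · refine h (reflectionLength M.toCoxeterSystem) ?_
    intro v k
    constructor
    · intro hk
      have hne : {n : ℕ | ∃ L : List M.Group, (∀ t ∈ L, M.toCoxeterSystem.IsReflection t) ∧
          L.prod = v ∧ L.length = n}.Nonempty := by
        obtain ⟨k, L, h1, h2, -⟩ := Pool.Agent.Lib.MP_60edde_al.exists_isRefProd
          M.toCoxeterSystem v
        exact ⟨L.length, L, h1, h2, rfl⟩
      obtain ⟨L, h1, h2, h3⟩ := Nat.sInf_mem hne
      exact ⟨L, h1, h2, h3.le.trans hk⟩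
    · rintro ⟨L, h1, h2, h3⟩
      have hmem : L.length ∈ {n : ℕ | ∃ L : List M.Group,
          (∀ t ∈ L, M.toCoxeterSystem.IsReflection t) ∧ L.prod = v ∧ L.length = n} :=
        ⟨L, h1, h2, rfl⟩
      exact (Nat.sInf_le hmem).trans h3

end Pool.Agent.Results.MP_60edde_al.IrrationalSrl
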