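import Mathlib
import Pool.Agent.Lib.MP_60edde_al.Final2

/-!
MP_60edde_al: for elements (conjugate into) special subgroups belonging to a class of groups
built from the trivial group by subgroups, finite index overgroups, direct products with `ℤ`
and amalgamated products over finite groups, the reflection length of powers is eventually
quasi-linear, hence the stable reflection length is rational.
-/

namespace Pool.Agent.Results.MP_60edde_al.TameQuasiLinear

open Filter Topology

universe u v

/-- Reflection length: least `n` such that `w` is a product of `n` reflections. -/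
noncomputable def reflectionLength {B : Type v} {W : Type u} [Group W] {M : CoxeterMatrix B}
    (cs : CoxeterSystem M W) (w : W) : ℕ :=
  sInf {n : ℕ | ∃ L : List W, (∀ t ∈ L, cs.IsReflection t) ∧ L.prod = w ∧ L.length = n}

/-- A group is virtually free when it has a free subgroup of finite index. -/
def IsVirtuallyFree (G : Type u) [Group G] : Prop :=
  ∃ H : Subgroup G, H.FiniteIndex ∧ IsFreeGroup H

/-- A group is virtually abelian when it has a commutative subgroup of finite index. -/
def IsVirtuallyAbelian (G : Type u) [Group G] : Prop :=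
  ∃ H : Subgroup G, H.FiniteIndex ∧ ∀ a b : H, a * b = b * a

/-- The smallest class of groups which contains the trivial groups and is closed under
groups embedding into a member (in particular subgroups and isomorphic copies), direct products
with the integers, finite index overgroups, and amalgamated free products of finitely many
members over a finite group. -/
inductive Tame : (G : Type u) → [Group G] → Prop
  | trivial (G : Type u) [Group G] [Subsingleton G] : Tame G
  | embed {K G : Type u} [Group K] [Group G] (f : K →* G) :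
      Function.Injective f → Tame G → Tame K
  | timesInt (G : Type u) [Group G] : Tame G → Tame (G × Multiplicative ℤ)
  | finiteIndex (G : Type u) [Group G] (H : Subgroup G) : H.FiniteIndex → Tame H → Tame G
  | amalgam {ι : Type} [Finite ι] [Nonempty ι] (G : ι → Type u) [∀ i, Group (G i)]
      (C : Type u) [Group C] [Finite C] (φ : ∀ i, C →* G i) :
      (∀ i, Function.Injective (φ i)) → (∀ i, Tame (G i)) → Tame (Monoid.PushoutI φ)

open Pool.Agent.Lib.MP_60edde_al Pool.Agent.Lib.MP_60edde_al.Sli in
theorem Tame.sli {G : Type u} [Group G] (h : Tame G) : SLI G := by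
  induction h with
  | trivial G => exact SLI.of_subsingleton G
  | embed f hf _ ih => exact ih.of_injective f hf
  | timesInt G _ ih => exact ih.prod_int
  | finiteIndex G H hH _ ih =>
    have := hH
    exact SLI.of_finiteIndex H ih
  | amalgam G C φ hφ _ ih => exact SLI.pushoutI φ hφ ih

theorem tame_of_virtuallyFree (G : Type u) [Group G] [Group.FG G] (h : IsVirtuallyFree G) :
    Tame G := by
  classical
  obtain ⟨H, hH, hfree⟩ := h
  refine Tame.finiteIndex G H hH ?_
  have : Group.FG H := Subgroup.fg_of_index_ne_zero H
  let e : H ≃* FreeGroup (IsFreeGroup.Generators H) := IsFreeGroup.toFreeGroup H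
  have : Group.FG (FreeGroup (IsFreeGroup.Generators H)) :=
    Group.fg_of_surjective (f := e.toMonoidHom) e.surjective
  have : Finite (IsFreeGroup.Generators H) :=
    Pool.Agent.Lib.MP_60edde_al.finite_of_fg_freeGroup _
  obtain ⟨n, ⟨eX⟩⟩ := Finite.exists_equiv_fin (IsFreeGroup.Generators H)
  -- the amalgam of copies of `ℤ` over the trivial group
  let Z : Option (Fin n) → Type u := fun _ => PUnit.{u + 1} × Multiplicative ℤ
  let φ : ∀ i : Option (Fin n), PUnit.{u + 1} →* Z i := fun _ => 1
  have hφ : ∀ i, Function.Injective (φ i) := fun i => Function.injective_of_subsingleton _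
  have hT : Tame (Monoid.PushoutI φ) :=
    Tame.amalgam Z PUnit.{u + 1} φ hφ (fun _ => Tame.timesInt PUnit (Tame.trivial PUnit))
  let gen : PUnit.{u + 1} × Multiplicative ℤ := (1, Multiplicative.ofAdd 1)
  let ψ : FreeGroup (IsFreeGroup.Generators H) →* Monoid.PushoutI φ :=
    FreeGroup.lift (fun x => Monoid.PushoutI.of (φ := φ) (some (eX x)) gen)
  let fI : ∀ i : Option (Fin n), Z i →* FreeGroup (IsFreeGroup.Generators H) := fun i =>
    match i with
    | none => 1
    | some j => ((zpowersHom (FreeGroup (IsFreeGroup.Generators H)))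
        (FreeGroup.of (eX.symm j))).comp (MonoidHom.snd PUnit.{u + 1} (Multiplicative ℤ))
  let θ : Monoid.PushoutI φ →* FreeGroup (IsFreeGroup.Generators H) :=
    Monoid.PushoutI.lift fI 1 (by
      intro i
      ext x
      have : x = 1 := Subsingleton.elim _ _
      rw [this, map_one, map_one])
  have hθψ : θ.comp ψ = MonoidHom.id _ := by
    ext x
    simp only [MonoidHom.comp_apply, ψ, FreeGroup.lift_apply_of, θ, Monoid.PushoutI.lift_of, fI,
      gen, MonoidHom.id_apply, Equiv.symm_apply_apply]
    rw [zpowersHom_apply]
    exact zpow_one (FreeGroup.of x)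
  have hψ : Function.Injective ψ := by
    intro a b hab
    have h1 := congrArg θ hab
    have h2 : ∀ z, θ (ψ z) = z := fun z => DFunLike.congr_fun hθψ z
    rwa [h2, h2] at h1
  exact Tame.embed (ψ.comp e.toMonoidHom) (hψ.comp e.injective) hT

theorem tame_of_finite (G : Type u) [Group G] [Finite G] : Tame G :=
  Tame.finiteIndex G ⊥ inferInstance (Tame.trivial _)

theorem tame_prod_pow (F : Type u) [Group F] (hF : Tame F) (n : ℕ) :
    Tame (F × (Fin n → Multiplicative ℤ)) := by
  induction n with
  | zero =>
    refine Tame.embed (MonoidHom.fst F (Fin 0 → Multiplicative ℤ)) ?_ hF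
    intro a b h
    exact Prod.ext h (Subsingleton.elim _ _)
  | succ n ih =>
    let f : F × (Fin (n + 1) → Multiplicative ℤ) →* (F × (Fin n → Multiplicative ℤ)) ×
        Multiplicative ℤ :=
      { toFun := fun a => ((a.1, fun i => a.2 i.succ), a.2 0)
        map_one' := rfl
        map_mul' := fun _ _ => rfl }
    refine Tame.embed f ?_ (Tame.timesInt _ ih)
    intro a b h
    have h1 : a.1 = b.1 := congrArg (fun x => x.1.1) h
    have h2 : (fun i : Fin n => a.2 i.succ) = fun i => b.2 i.succ := congrArg (fun x => x.1.2) h
    have h3 : a.2 0 = b.2 0 := congrArg (fun x => x.2) h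
    refine Prod.ext h1 ?_
    funext i
    refine Fin.cases h3 (fun j => congrFun h2 j) i

theorem tame_of_virtuallyAbelian (G : Type u) [Group G] [Group.FG G]
    (h : IsVirtuallyAbelian G) : Tame G := by
  obtain ⟨H, hH, hcomm⟩ := h
  refine Tame.finiteIndex G H hH ?_
  have : Group.FG H := Subgroup.fg_of_index_ne_zero H
  let inst : CommGroup H := { (inferInstance : Group H) with mul_comm := hcomm }
  obtain ⟨ι, j, _, _, p, hp, e, ⟨f⟩⟩ := CommGroup.equiv_free_prod_prod_multiplicative_zmod H
  have hne : ∀ i, NeZero (p i ^ e i) := fun i => ⟨pow_ne_zero _ (hp i).ne_zero⟩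
  have hfin : ∀ i, Finite (Multiplicative (ZMod (p i ^ e i))) := fun i =>
    inferInstanceAs (Finite (ZMod (p i ^ e i)))
  let F0 := (i : ι) → Multiplicative (ZMod (p i ^ e i))
  have : Finite F0 := Pi.finite
  obtain ⟨n, ⟨ej⟩⟩ := Finite.exists_equiv_fin j
  let g : H →* ULift.{u} F0 × (Fin n → Multiplicative ℤ) :=
    { toFun := fun x => (ULift.up (f x).2, fun k => (f x).1 (ej.symm k))
      map_one' := by rw [map_one]; rfl
      map_mul' := by intro x y; rw [map_mul]; rfl }
  refine Tame.embed g ?_ (tame_prod_pow _ (tame_of_finite _) n)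
  intro x y hxy
  have h1 : (f x).2 = (f y).2 := congrArg (fun z => z.1.down) hxy
  have h2 : (fun k => (f x).1 (ej.symm k)) = fun k => (f y).1 (ej.symm k) :=
    congrArg (fun z => z.2) hxy
  apply f.injective
  refine Prod.ext ?_ h1
  funext k
  have := congrFun h2 (ej k)
  simpa using this

/-- Let `(W, S)` be a Coxeter system of finite rank, `I ⊆ S` and suppose that the special
subgroup `W_I` is tame. If `w` is conjugate to an element of `W_I`, then the function
`n ↦ rl (w ^ n)` is eventually quasi-linear, `rl (w ^ (n + p)) = rl (w ^ n) + q` for all large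
`n`, and the stable reflection length of `w` is the rational number `q / p`. Moreover every
finitely generated group which is virtually free or virtually abelian is tame. -/
theorem result :
    (∀ (B : Type v) (W : Type u) [Finite B] [Group W] (M : CoxeterMatrix B)
      (cs : CoxeterSystem M W) (I : Set B), Tame (Subgroup.closure (cs.simple '' I)) →
      ∀ w : W, (∃ g : W, g * w * g⁻¹ ∈ Subgroup.closure (cs.simple '' I)) →
        ∃ p q n₀ : ℕ, 1 ≤ p ∧
          (∀ n, n₀ ≤ n → reflectionLength cs (w ^ (n + p)) = reflectionLength cs (w ^ n) + q) ∧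
          Tendsto (fun n : ℕ => (reflectionLength cs (w ^ n) : ℝ) / n) atTop
            (𝓝 (((q : ℚ) / p : ℚ) : ℝ))) ∧
    (∀ (G : Type u) [Group G] [Group.FG G], IsVirtuallyFree G ∨ IsVirtuallyAbelian G →
      Tame G) := by
  refine ⟨?_, fun G _ _ h => h.elim (tame_of_virtuallyFree G) (tame_of_virtuallyAbelian G)⟩
  intro B W _ _ M cs I hI w hw
  refine Pool.Agent.Lib.MP_60edde_al.main_quasi_linear cs I hI.sli (reflectionLength cs) ?_ w hw
  intro v k
  constructor
  · rintro ⟨L, h1, h2, h3⟩
    have hmem : L.length ∈ {n : ℕ | ∃ L : List W, (∀ t ∈ L, cs.IsReflection t) ∧ L.prod = v ∧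
        L.length = n} := ⟨L, h1, h2, rfl⟩
    exact (Nat.sInf_le hmem).trans h3
  · intro h
    have hne : {n : ℕ | ∃ L : List W, (∀ t ∈ L, cs.IsReflection t) ∧ L.prod = v ∧
        L.length = n}.Nonempty := by
      obtain ⟨k, L, h1, h2, -⟩ := Pool.Agent.Lib.MP_60edde_al.exists_isRefProd cs v
      exact ⟨L.length, L, h1, h2, rfl⟩
    obtain ⟨L, h1, h2, h3⟩ := Nat.sInf_mem hne
    exact ⟨L, h1, h2, h3.le.trans h⟩

end Pool.Agent.Results.MP_60edde_al.TameQuasiLinear
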